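import Mathlib
import Pool.Agent.Q29.DigPolyTM
import Pool.Agent.Q29.MixFam
import Pool.Agent.TH456.TM.Near

/-!
# The digits of the numbers `π + r e`, `π e ^ k` and of the values of polynomials at them

Let `z = e` or `z = π`, and let `t` be any real number (for instance the other one of `e`, `π`). Consider finitely many
different numbers of the form `t + r z`, `r` a nonzero integer, and `t z ^ k`, `k` an integer, none of them zero. At most
one of them is algebraic, that is, for at most one of them, `v`, there is a nonconstant integer polynomial `P` such that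
`P(v)` is rational, with digits of bounded linear complexity (the least order of a linear recurrence which the first `L`
digits satisfy). We prove this at every scale: for every `D` there is an exponent `κ`, which does not depend on `t`,
such that at each scale `Λ` at most one of the numbers is exceptional; for all other numbers `v`, all nonconstant `P` of
degree at most `D` and height at most `e^(δ Λ)` and all bases `g ≤ e^(δ Λ)` the linear complexity of the first
`⌊Λ / log g⌋` digits of `P(v)` in base `g` is at least `(1 / (κ + 1) - ε) Λ / log g`. In particular at each scale at least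
three of the four numbers `π + e`, `π - e`, `π e`, `π / e` and all their polynomials have complex digits.

The proof uses the simultaneous measure of transcendence of these numbers (`Pool/Agent/Q29/MixFam.lean`, and the starting
files `Pool/Agent/TH456/TM/`) and the approximations given by a short recurrence of digits, uniformly in the base
(`Pool/Agent/Y928/PL/Mixed.lean`).
-/

set_option autoImplicit false

namespace Pool.Agent.Results.MP_a2f59b_nt.DigitsOfPolynomials

open Finset Polynomial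

/-- the `i`-th digit of `x` after the point in base `g` -/
noncomputable def digit (g : ℕ) (x : ℝ) (i : ℕ) : ℤ := ⌊x * (g : ℝ) ^ i⌋ % (g : ℤ)

/-- the linear complexity of the first `L` digits of `x` in base `g`: the least `m` such that for some
rational numbers `c_0, …, c_(m-1)` one has `s_(i+m) = c_0 s_i + … + c_(m-1) s_(i+m-1)` for
`1 ≤ i ≤ L - m`, where `s_i` is the `i`-th digit -/
noncomputable def complexity (g : ℕ) (x : ℝ) (L : ℕ) : ℕ :=
  sInf {m | ∃ c : ℕ → ℚ, ∀ i : ℕ, 1 ≤ i → i + m ≤ L →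
    (digit g x (i + m) : ℚ) = ∑ j ∈ range m, c j * (digit g x (i + j) : ℚ)}

/-- the function `m + C √((m+1) log (m+2))` -/
noncomputable def F (C : ℝ) (m : ℕ) : ℝ :=
  m + C * Real.sqrt (((m : ℝ) + 1) * Real.log ((m : ℝ) + 2))

/-- **The digits of the values of nonconstant polynomials of degree at most `D` at different numbers `v i`, `v j` of the
family `v` are not simple at the same scale**, with the exponent `κ`. (1) For some `C`, for all `i ≠ j`, all nonconstant
integer polynomials `P`, `Q` of degree at most `D` with coefficients bounded by `M`, all bases `g`, `g'` and all `L`, `L'`: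
if `F(N) log g ≤ α` and `F(N') log g' ≤ α` for the linear complexities `N`, `N'` of the first `L` digits of `P(v i)` in base
`g` and the first `L'` digits of `Q(v j)` in base `g'`, then `min (L log g, L' log g') ≤ (κ + 1) α + κ log M`. (2) For
`ε > 0` there is `δ > 0` such that for all `Λ ≥ 1`, `i ≠ j`, all such `P`, `Q` with coefficients bounded by `e^(δ Λ)` and all
bases `g, g' ≤ e^(δ Λ)`, with `L = ⌊Λ / log g⌋`, `L' = ⌊Λ / log g'⌋`, one has `N ≥ (1 / (κ + 1) - ε) Λ / log g` or
`N' ≥ (1 / (κ + 1) - ε) Λ / log g'`. So at each scale `Λ` there is at most one `i` such that the digits of some number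
`P(v i)` in some base are simple. -/
def Complicated {ι : Type} (v : ι → ℝ) (D : ℕ) (κ : ℝ) : Prop :=
  (∃ C : ℝ, 0 < C ∧ ∀ i j, i ≠ j → ∀ P Q : ℤ[X], 0 < P.natDegree → 0 < Q.natDegree → P.natDegree ≤ D →
    Q.natDegree ≤ D → ∀ M : ℝ, 1 ≤ M → (∀ n, |(P.coeff n : ℝ)| ≤ M) → (∀ n, |(Q.coeff n : ℝ)| ≤ M) →
    ∀ g g' : ℕ, 2 ≤ g → 2 ≤ g' → ∀ (L L' : ℕ) (Λ α : ℝ), Λ ≤ L * Real.log g → Λ ≤ L' * Real.log g' →
      F C (complexity g (aeval (v i) P) L) * Real.log g ≤ α →
      F C (complexity g' (aeval (v j) Q) L') * Real.log g' ≤ α → Λ ≤ (κ + 1) * α + κ * Real.log M) ∧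
  ∀ ε : ℝ, 0 < ε → ∃ δ : ℝ, 0 < δ ∧ ∀ Λ : ℝ, 1 ≤ Λ → ∀ i j, i ≠ j → ∀ P Q : ℤ[X], 0 < P.natDegree →
    0 < Q.natDegree → P.natDegree ≤ D → Q.natDegree ≤ D → (∀ n, |(P.coeff n : ℝ)| ≤ Real.exp (δ * Λ)) →
    (∀ n, |(Q.coeff n : ℝ)| ≤ Real.exp (δ * Λ)) → ∀ g g' : ℕ, 2 ≤ g → 2 ≤ g' → (g : ℝ) ≤ Real.exp (δ * Λ) →
    (g' : ℝ) ≤ Real.exp (δ * Λ) →
      (1 / (κ + 1) - ε) * (Λ / Real.log g) ≤ complexity g (aeval (v i) P) ⌊Λ / Real.log g⌋₊ ∨
      (1 / (κ + 1) - ε) * (Λ / Real.log g') ≤ complexity g' (aeval (v j) Q) ⌊Λ / Real.log g'⌋₊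

/-- the numbers `t + r z` and `t z ^ k` -/
noncomputable def num (z t : ℝ) : ℤ ⊕ ℤ → ℝ
  | Sum.inl r => t + r * z
  | Sum.inr k => t * z ^ k

theorem num_coe (z t : ℝ) (i : ℤ ⊕ ℤ) : ((num z t i : ℝ) : ℂ) = Pool.Agent.Q29.Mix.numC z t i := by
  rcases i with r | k
  · simp [num, Pool.Agent.Q29.Mix.numC]
  · simp [num, Pool.Agent.Q29.Mix.numC]

theorem num_ne (r : ℤ) : Real.pi + r * Real.exp 1 ≠ 0 := by
  have h1 := Real.pi_gt_d2
  have h2 := Real.pi_lt_d2
  have h3 := Real.exp_one_gt_d9
  have h4 := Real.exp_one_lt_d9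
  rcases lt_or_ge r (-1) with h | h
  · have h5 : (r : ℝ) ≤ -2 := by exact_mod_cast (show r ≤ -2 by omega)
    nlinarith
  · have h5 : (-1 : ℝ) ≤ r := by exact_mod_cast h
    nlinarith

theorem num_ne' (r : ℤ) : Real.exp 1 + r * Real.pi ≠ 0 := by
  have h1 := Real.pi_gt_d2
  have h3 := Real.exp_one_gt_d9
  have h4 := Real.exp_one_lt_d9
  rcases lt_or_ge r 0 with h | h
  · have h5 : (r : ℝ) ≤ -1 := by exact_mod_cast (show r ≤ -1 by omega)
    nlinarith
  · have h5 : (0 : ℝ) ≤ r := by exact_mod_cast h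
    nlinarith

/-- **The digits of the numbers `t + r z`, `t z ^ k`.** (1) None of the numbers `π + r e`, `π e ^ k`, `e + r π`, `e π ^ k`
is zero. (2) For `z = e` and `z = π`, every finite set `S` of indices and every `D` there is an exponent `κ` such that for
all real `t` for which the numbers are not zero the family has the property `Complicated`. -/
theorem result :
    ((∀ i, num (Real.exp 1) Real.pi i ≠ 0) ∧ (∀ i, num Real.pi (Real.exp 1) i ≠ 0)) ∧
    (∀ z : ℝ, z = Real.exp 1 ∨ z = Real.pi →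
      ∀ (S : Finset (ℤ ⊕ ℤ)) (D : ℕ), Sum.inl 0 ∉ S → ∃ κ : ℝ, 0 < κ ∧
        ∀ t : ℝ, (∀ i ∈ S, num z t i ≠ 0) → Complicated (fun i : S => num z t i) D κ) := by
  have he0 : Real.exp 1 ≠ 0 := (Real.exp_pos 1).ne'
  refine ⟨⟨fun i => ?_, fun i => ?_⟩, fun z hz => ?_⟩
  · rcases i with r | k
    · exact num_ne r
    · exact mul_ne_zero Real.pi_ne_zero (zpow_ne_zero _ he0)
  · rcases i with r | k
    · exact num_ne' r
    · exact mul_ne_zero he0 (zpow_ne_zero _ Real.pi_ne_zero)
  have hm : Pool.Agent.TH456.TM.MeasT (z : ℂ) := by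
    rcases hz with rfl | rfl
    · exact Pool.Agent.TH456.TM.measT_e
    · exact Pool.Agent.TH456.TM.measT_pi
  intro S D hS
  obtain ⟨κ, hκ, h⟩ := Pool.Agent.Q29.Mix.fam_mix z hm S hS D
  refine ⟨max κ 3, by positivity, fun t ht => ?_⟩
  obtain ⟨C, hC, h1, h2⟩ := h t (fun i hi => by
    rw [← num_coe]
    exact_mod_cast ht i hi)
  refine Pool.Agent.Q29.DD.digComplex_of_TM _ D κ ⟨C, hC, ?_⟩
  intro i j hij P Q hP hQ hPD hQD H hPH hQH
  rw [num_coe, num_coe]
  exact h1 i j hij P Q hP hQ hPD hQD H hPH hQH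

end Pool.Agent.Results.MP_a2f59b_nt.DigitsOfPolynomials
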