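import Mathlib
import Pool.Agent.Q29.EqTM
import Pool.Agent.Q29.MixFam

/-!
# Uniform distribution of the multiples of `π + r e`, `π e ^ k` and of the values of polynomials at them

Let `z = e` or `z = π`, and let `t` be any real number (for instance the other one of `e`, `π`, or `π ^ e`, `e ^ e`,
`π ^ π`, `π ^ √2`, `e ^ (π ^ 2)`). Consider finitely many different numbers of the form `t + r z`, `r` a nonzero integer,
and `t z ^ k`, `k` an integer, none of them zero. At most one of them is algebraic. If a number `x` is rational, its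
multiples by the integers up to `M`, by their powers or by the primes up to `M` are not uniformly distributed modulo
one at any large scale `M`; if `x` is algebraic of degree at most `D`, this happens for some `P(x)`, `P` a nonconstant
integer polynomial of degree at most `D`. We prove that at every scale at most one of the numbers above has such a
defect: for all `D`, `K` and `A` there is `κ > 0` which does not depend on `t` such that for every large `N`, with at most
one exception, the numbers `x` of the family have the following property. For all nonconstant integer polynomials `P` of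
degree at most `D` and height at most `N ^ κ` and all `M` from `N` to `N ^ A`, the multiples of `P(x)` by the integers up
to `M`, by their `k`-th powers, `k ≤ K` (even with a real polynomial of degree less than `k` added), and by the primes
up to `M` in each residue class modulo `d ≤ M ^ κ`, are uniformly distributed modulo one with an error `M ^ (1 - κ)`. In
particular for every large `N` at least three of the four numbers `π + e`, `π - e`, `π e`, `π / e` have this property.

The proof uses the simultaneous measure of transcendence of these numbers (`Pool/Agent/Q29/MixFam.lean`, and the starting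
files `Pool/Agent/TH456/TM/`), an inverse theorem for the sums of Weyl and a form of the estimate of Vinogradov for the
sums over primes with a power saving from the starting files (`H373R2/NB`, `W110/HV`).
-/

set_option autoImplicit false

namespace Pool.Agent.Results.MP_a2f59b_nt.MultiplesAlongPrimes

open Finset Polynomial

/-- The multiples of `x` are uniformly distributed at the scale `M`, with a power saving, along all polynomials of degree
at most `K` and along the primes of all residue classes:

* for every nonzero integer `b` with `|b| ≤ M ^ κ`, every `1 ≤ k ≤ K` and every real polynomial `R` of degree less than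
  `k`, the number of `0 ≤ n < M` with the fractional part of `b x n ^ k + R(n)` in `[u, v)` is `(v - u) M` up to
  `M ^ (1 - κ)`, for all `0 ≤ u ≤ v ≤ 1`;
* for every such `b`, every `1 ≤ d ≤ M ^ κ`, every `r` and every real `β`, the number of primes `p ≤ M` with
  `p ≡ r (mod d)` and the fractional part of `b x p + β` in `[u, v)` is `(v - u)` times the number of all the primes
  `p ≤ M` with `p ≡ r (mod d)`, up to `M ^ (1 - κ)`. -/
def Good (κ : ℝ) (K M : ℕ) (x : ℝ) : Prop :=
  (∀ b : ℤ, b ≠ 0 → |(b : ℝ)| ≤ (M : ℝ) ^ κ → ∀ k : ℕ, 1 ≤ k → k ≤ K → ∀ R : ℝ[X], R.degree < k →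
    ∀ u v : ℝ, 0 ≤ u → u ≤ v → v ≤ 1 →
      |(((range M).filter fun n : ℕ => u ≤ Int.fract (b * x * (n : ℝ) ^ k + R.eval (n : ℝ)) ∧
          Int.fract (b * x * (n : ℝ) ^ k + R.eval (n : ℝ)) < v).card : ℝ) - (v - u) * M| ≤
        (M : ℝ) ^ (1 - κ)) ∧
  (∀ b : ℤ, b ≠ 0 → |(b : ℝ)| ≤ (M : ℝ) ^ κ → ∀ d r : ℕ, 1 ≤ d → (d : ℝ) ≤ (M : ℝ) ^ κ → ∀ β : ℝ,
    ∀ u v : ℝ, 0 ≤ u → u ≤ v → v ≤ 1 →
      |(((range (M + 1)).filter fun p : ℕ => (p.Prime ∧ p ≡ r [MOD d]) ∧
          (u ≤ Int.fract (b * x * p + β) ∧ Int.fract (b * x * p + β) < v)).card : ℝ) -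
        (v - u) * ((range (M + 1)).filter fun p : ℕ => p.Prime ∧ p ≡ r [MOD d]).card| ≤
        (M : ℝ) ^ (1 - κ))

/-- All the values `P(x)`, `P` a nonconstant integer polynomial of degree at most `D` with coefficients bounded by
`N ^ κ`, have uniformly distributed multiples at all the scales `M` from `N` to `N ^ A`. If `x` is algebraic of degree at
most `D`, then this fails for all large `N`, since some `P(x)` is an integer. -/
def AllGood (x : ℝ) (D K : ℕ) (A κ : ℝ) (N : ℕ) : Prop :=
  ∀ P : ℤ[X], 0 < P.natDegree → P.natDegree ≤ D → (∀ n, |(P.coeff n : ℝ)| ≤ (N : ℝ) ^ κ) →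
    ∀ M : ℕ, N ≤ M → (M : ℝ) ≤ (N : ℝ) ^ A → Good κ K M (aeval x P)

theorem good_iff (κ : ℝ) (K M : ℕ) (x : ℝ) : Good κ K M x ↔ Pool.Agent.Q29.Eqd.Good κ K M x := Iff.rfl

theorem allGood_iff (x : ℝ) (D K : ℕ) (A κ : ℝ) (N : ℕ) :
    AllGood x D K A κ N ↔ Pool.Agent.Q29.Eqd.AllGood x D K A κ N := by
  unfold AllGood Pool.Agent.Q29.Eqd.AllGood
  simp only [good_iff]

/-- the numbers `t + r z` and `t z ^ k` -/
noncomputable def num (z t : ℝ) : ℤ ⊕ ℤ → ℝ
  | Sum.inl r => t + r * z
  | Sum.inr k => t * z ^ k

theorem num_coe (z t : ℝ) (i : ℤ ⊕ ℤ) : ((num z t i : ℝ) : ℂ) = Pool.Agent.Q29.Mix.numC z t i := by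
  rcases i with r | k
  · simp [num, Pool.Agent.Q29.Mix.numC]
  · simp [num, Pool.Agent.Q29.Mix.numC]

theorem num_ne (r : ℤ) : Real.pi + r * Real.exp 1 ≠ 0 := by
  have h1 := Real.pi_gt_d2
  have h2 := Real.pi_lt_d2
  have h3 := Real.exp_one_gt_d9
  have h4 := Real.exp_one_lt_d9
  rcases lt_or_ge r (-1) with h | h
  · have h5 : (r : ℝ) ≤ -2 := by exact_mod_cast (show r ≤ -2 by omega)
    nlinarith
  · have h5 : (-1 : ℝ) ≤ r := by exact_mod_cast h
    nlinarith

theorem num_ne' (r : ℤ) : Real.exp 1 + r * Real.pi ≠ 0 := by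
  have h1 := Real.pi_gt_d2
  have h3 := Real.exp_one_gt_d9
  have h4 := Real.exp_one_lt_d9
  rcases lt_or_ge r 0 with h | h
  · have h5 : (r : ℝ) ≤ -1 := by exact_mod_cast (show r ≤ -1 by omega)
    nlinarith
  · have h5 : (0 : ℝ) ≤ r := by exact_mod_cast h
    nlinarith

/-- **Uniform distribution of the multiples of the numbers `t + r z`, `t z ^ k` and of the values of polynomials at them.**
(1) None of the numbers `π + r e`, `π e ^ k`, `e + r π`, `e π ^ k` is zero. (2) For `z = e` and `z = π`, every finite set `S`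
of indices, all `D`, `K` and every `A ≥ 1` there is `κ > 0` such that for every real `t` for which the numbers are not
zero there is `N₀` such that for every `N ≥ N₀` at most one of the numbers does not have the property `AllGood`. -/
theorem result :
    ((∀ i, num (Real.exp 1) Real.pi i ≠ 0) ∧ (∀ i, num Real.pi (Real.exp 1) i ≠ 0)) ∧
    (∀ z : ℝ, z = Real.exp 1 ∨ z = Real.pi →
      ∀ (S : Finset (ℤ ⊕ ℤ)) (D K : ℕ) (A : ℝ), Sum.inl 0 ∉ S → 1 ≤ A → ∃ κ : ℝ, 0 < κ ∧
        ∀ t : ℝ, (∀ i ∈ S, num z t i ≠ 0) → ∃ N₀ : ℕ, ∀ N : ℕ, N₀ ≤ N →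
          {i | i ∈ S ∧ ¬ AllGood (num z t i) D K A κ N}.Subsingleton) := by
  have he0 : Real.exp 1 ≠ 0 := (Real.exp_pos 1).ne'
  refine ⟨⟨fun i => ?_, fun i => ?_⟩, fun z hz => ?_⟩
  · rcases i with r | k
    · exact num_ne r
    · exact mul_ne_zero Real.pi_ne_zero (zpow_ne_zero _ he0)
  · rcases i with r | k
    · exact num_ne' r
    · exact mul_ne_zero he0 (zpow_ne_zero _ Real.pi_ne_zero)
  have hm : Pool.Agent.TH456.TM.MeasT (z : ℂ) := by
    rcases hz with rfl | rfl
    · exact Pool.Agent.TH456.TM.measT_e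
    · exact Pool.Agent.TH456.TM.measT_pi
  intro S D K A hS hA
  obtain ⟨κ, hκ, h⟩ := Pool.Agent.Q29.Mix.fam_mix z hm S hS D
  obtain ⟨κ', hκ', hE⟩ := Pool.Agent.Q29.Eqd.allGood_of_TM (ι := S) D K κ A hκ.le hA
  refine ⟨κ', hκ', fun t ht => ?_⟩
  obtain ⟨C, hC, h1, h2⟩ := h t (fun i hi => by
    rw [← num_coe]
    exact_mod_cast ht i hi)
  obtain ⟨N₀, hN₀⟩ := hE (fun i : S => num z t i) ⟨C, hC, by
    intro i j hij P Q hP hQ hPD hQD H hPH hQH
    rw [num_coe, num_coe]
    exact h1 i j hij P Q hP hQ hPD hQD H hPH hQH⟩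
  refine ⟨N₀, fun N hN i hi j hj => ?_⟩
  rw [Set.mem_ofPred_eq] at hi hj
  have hsub := hN₀ N hN
  have h3 : (⟨i, hi.1⟩ : S) = ⟨j, hj.1⟩ := by
    apply hsub
    · rw [Set.mem_ofPred_eq, ← allGood_iff]
      exact hi.2
    · rw [Set.mem_ofPred_eq, ← allGood_iff]
      exact hj.2
  exact congrArg Subtype.val h3

end Pool.Agent.Results.MP_a2f59b_nt.MultiplesAlongPrimes
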