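import Mathlib
import Pool.Agent.Q29.Plane
import Pool.Agent.Dim7.PD.Fin
import Pool.Agent.Dim7.PD.PU
import Pool.Agent.Dim7.PD.AR
import Pool.Agent.Dim7.PD.NV
import Pool.Agent.Dim7.PD.SV
import Pool.Agent.Dim7.PD.RH
import Pool.Agent.Dim7.PD.FX

/-!
# The rank of the near relations between `1, ζ(3), ζ(5), ζ(7)` and arbitrary numbers

For all real numbers `t_1, …, t_r` (for instance other odd zeta values, or monomials in `π` and the odd zeta values) the
integer vectors of norm at most `X` on which the linear form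
`a + b ζ(3) + b' ζ(5) + b'' ζ(7) + e_1 t_1 + … + e_r t_r` is smaller than `c X ^ (-(4282 r + 4281))` span a space of
dimension at most `r + 1`, at every scale `X`, with `c` independent of `t_1, …, t_r`. So any finite family of numbers which
contains `1, ζ(3), ζ(5), ζ(7)` has rank at least three over the rationals, in a quantitative sense: for every finite set of
monomials in `π` and the odd zeta values which contains `1, ζ(3), ζ(5), ζ(7)`, the integer polynomials with these monomials, with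
coefficients bounded by `X` and with very small values span a space of codimension at least three.

The proof is an elimination argument (`Pool/Agent/Q29/Plane.lean`) and the lower bound for the distance of
`(1, ζ(3), ζ(5), ζ(7))` to rational planes of the starting files, see
`Pool/Agent/Results/MP_c2395a_nt/PlaneDistanceZeta7.lean`.
-/

set_option autoImplicit false

namespace Pool.Agent.Results.MP_a89d6d_nt.RankWithZetaSeven

/-- `ζ(i)` -/
noncomputable def zeta (i : ℕ) : ℝ := ∑' n : ℕ, 1 / ((n : ℝ) + 1) ^ i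

/-- the value of the form `a + b ζ(3) + b' ζ(5) + b'' ζ(7) + e_1 t_1 + … + e_r t_r` for
`v = ((a, b, b', b''), (e_1, …, e_r))` -/
noncomputable def form {r : ℕ} (t : Fin r → ℝ) (v : (Fin 4 → ℤ) × (Fin r → ℤ)) : ℝ :=
  v.1 0 + v.1 1 * zeta 3 + v.1 2 * zeta 5 + v.1 3 * zeta 7 + ∑ j, (v.2 j : ℝ) * t j

/-- the distance to rational planes -/
theorem plane : ∃ c : ℝ, 0 < c ∧ Pool.Agent.Q29.Plane.PlaneDist (fun i : Fin 3 => zeta (2 * i + 3)) 1070 c := by
  obtain ⟨c, hc, h⟩ := Pool.Agent.Dim7.PD.main_of Pool.Agent.Dim7.PD.P_unif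
    (Pool.Agent.Dim7.PD.AR_of Pool.Agent.Dim7.PD.FN_in Pool.Agent.Dim7.PD.rho_le' Pool.Agent.Dim7.PD.BL_le'
      Pool.Agent.Dim7.PD.sv_add' Pool.Agent.Dim7.PD.sv_entry') Pool.Agent.Dim7.PD.nonv
  refine ⟨c, hc, fun q a b θ H hq hqH hbH => ?_⟩
  obtain ⟨i, hi, hle⟩ := h q (fun n => a (if n = 3 then 0 else if n = 5 then 1 else 2))
    (fun n => b (if n = 3 then 0 else if n = 5 then 1 else 2)) θ H hq hqH (fun i _ => hbH _)
  simp only [Finset.mem_insert, Finset.mem_singleton] at hi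
  rcases hi with rfl | rfl | rfl
  · exact ⟨0, hle⟩
  · exact ⟨1, hle⟩
  · exact ⟨2, hle⟩

/-- **The rank of the near relations between `1, ζ(3), ζ(5), ζ(7)` and arbitrary numbers.** -/
theorem result (r : ℕ) : ∃ c : ℝ, 0 < c ∧ ∀ (t : Fin r → ℝ) (X : ℝ), 1 ≤ X →
    (∀ v : Fin (r + 2) → (Fin 4 → ℤ) × (Fin r → ℤ), LinearIndependent ℤ v → (∀ k, ‖v k‖ ≤ X) →
      ∃ k, c / X ^ (4282 * r + 4281) ≤ |form t (v k)|) ∧
    Module.finrank ℚ (Submodule.span ℚ ((fun (v : (Fin 4 → ℤ) × (Fin r → ℤ)) =>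
      (((fun i => (v.1 i : ℚ)), (fun j => (v.2 j : ℚ))) : (Fin 4 → ℚ) × (Fin r → ℚ))) ''
        {v | ‖v‖ ≤ X ∧ |form t v| < c / X ^ (4282 * r + 4281)})) ≤ r + 1 := by
  obtain ⟨c, hc, h⟩ := plane
  obtain ⟨c', hc', h'⟩ := Pool.Agent.Q29.Plane.rank_plane _ 1070 c hc h r
  have hform : ∀ (t : Fin r → ℝ) (v : (Fin 4 → ℤ) × (Fin r → ℤ)),
      Pool.Agent.Q29.Plane.val (fun i : Fin 3 => zeta (2 * i + 3)) t v = form t v := by
    intro t v
    unfold Pool.Agent.Q29.Plane.val form
    rw [Fin.sum_univ_three]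
    show (v.1 0 : ℝ) + ((v.1 1 : ℝ) * zeta 3 + (v.1 2 : ℝ) * zeta 5 + (v.1 3 : ℝ) * zeta 7) + _ = _
    ring
  have part1 : ∀ (t : Fin r → ℝ) (X : ℝ), 1 ≤ X →
      ∀ v : Fin (r + 2) → (Fin 4 → ℤ) × (Fin r → ℤ), LinearIndependent ℤ v → (∀ k, ‖v k‖ ≤ X) →
      ∃ k, c' / X ^ (4282 * r + 4281) ≤ |form t (v k)| := by
    intro t X hX v hv hvX
    obtain ⟨k, hk⟩ := h' t X hX v hv hvX
    refine ⟨k, ?_⟩
    rw [hform] at hk
    have e : (4 * 1070 + 1) * (r + 1) + r = 4282 * r + 4281 := by ring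
    rwa [e] at hk
  refine ⟨c', hc', fun t X hX => ⟨part1 t X hX, ?_⟩⟩
  -- from independent vectors to the dimension of the span
  by_contra hcon
  push Not at hcon
  obtain ⟨S, hS⟩ : ∃ S : Set ((Fin 4 → ℤ) × (Fin r → ℤ)),
    S = {v | ‖v‖ ≤ X ∧ |form t v| < c' / X ^ (4282 * r + 4281)} := ⟨_, rfl⟩
  rw [← hS] at hcon
  obtain ⟨ι, hι⟩ : ∃ ι : (Fin 4 → ℤ) × (Fin r → ℤ) → (Fin 4 → ℚ) × (Fin r → ℚ),
    ι = fun v => ((fun i => (v.1 i : ℚ)), (fun j => (v.2 j : ℚ))) := ⟨_, rfl⟩
  rw [← hι] at hcon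
  obtain ⟨B, hBS, hBspan, hBli⟩ := exists_linearIndependent ℚ (ι '' S)
  rw [← hBspan] at hcon
  have hBfin : B.Finite := hBli.setFinite
  have hcard : Module.finrank ℚ (Submodule.span ℚ B) = B.ncard := by
    have := hBfin.fintype
    rw [finrank_span_set_eq_card hBli, Set.toFinset_card, Set.ncard_eq_toFinset_card', Set.toFinset_card]
  rw [hcard] at hcon
  obtain ⟨f, hf⟩ : ∃ f : Fin (r + 2) → B, Function.Injective f := by
    have := hBfin.fintype
    have h1 : Fintype.card (Fin (r + 2)) ≤ Fintype.card B := by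
      rw [Fintype.card_fin, ← Set.toFinset_card, ← Set.ncard_eq_toFinset_card']
      omega
    exact (Function.Embedding.nonempty_of_card_le h1).elim fun e => ⟨e, e.injective⟩
  choose g hg using fun b : B => hBS b.2
  obtain ⟨k, hk⟩ := part1 t X hX (fun k => g (f k)) (by
    have h1 : LinearIndependent ℚ (fun k => (f k : (Fin 4 → ℚ) × (Fin r → ℚ))) :=
      hBli.comp f hf
    rw [Fintype.linearIndependent_iff] at h1 ⊢
    intro w hw k
    have h2 := h1 (fun k => (w k : ℚ)) (by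
      have h3 : ∀ k, (f k : (Fin 4 → ℚ) × (Fin r → ℚ)) = ι (g (f k)) := fun k => (hg (f k)).2.symm
      simp only [h3]
      refine Prod.ext ?_ ?_
      · rw [Prod.fst_sum]
        funext i
        rw [Finset.sum_apply]
        have h4 := congrFun (congrArg Prod.fst hw) i
        rw [Prod.fst_sum, Finset.sum_apply] at h4
        simp only [Prod.smul_fst, Pi.smul_apply, smul_eq_mul, Prod.fst_zero, Pi.zero_apply] at h4 ⊢
        simp only [hι]
        exact_mod_cast h4
      · rw [Prod.snd_sum]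
        funext i
        rw [Finset.sum_apply]
        have h4 := congrFun (congrArg Prod.snd hw) i
        rw [Prod.snd_sum, Finset.sum_apply] at h4
        simp only [Prod.smul_snd, Pi.smul_apply, smul_eq_mul, Prod.snd_zero, Pi.zero_apply] at h4 ⊢
        simp only [hι]
        exact_mod_cast h4) k
    exact_mod_cast h2) (fun k => by
      have h1 := (hg (f k)).1
      rw [hS] at h1
      exact h1.1)
  have h1 := (hg (f k)).1
  rw [hS] at h1
  exact absurd hk (not_le.2 h1.2)

end Pool.Agent.Results.MP_a89d6d_nt.RankWithZetaSeven
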