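import Pool.Agent.Q23.ZZ.Loc

/-!
# `ζ(q), ζ(2q), ζ(3q), …`, their derivatives and the values of Dirichlet L-functions at almost all algebraic numbers

It is conjectured that the numbers `ζ(3), ζ(5), ζ(7), …` are algebraically independent. Here we replace the arguments
`3, 5, 7, …` by arbitrary pairwise different arguments `k q + x_i`, `1 ≤ k ≤ κ`, with fixed real `x_i`, and let `q` vary:
for almost all elements `q` of number fields of bounded degree (and for almost all `n`-tuples of them) the numbers
`L^(l)(k q + x_i, χ_j)`, `l < s`, where the `χ_j` are different Dirichlet characters (for the trivial character modulo `1`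
this is `ζ^(l)(k q + x_i)`), and the numbers `exp(α_j q)`, for instance `π^q`, satisfy no polynomial relation of bounded
degree and polynomially bounded height, not even approximately, and relative to arbitrary constants (for instance the
powers of `π`). The L-functions are the analytic continuations to the complex plane.
-/

set_option autoImplicit false

open NumberField

namespace Pool.Agent.Results.MP_c2395a_nt.ZetaAtMultiples

/-- The index set: `inl (j, (k, (i, l)))` stands for `L^(l)(χ_j, (k + 1) z + x_i)`, `j < c`, `k < κ`, `i < r`, `l < s`, and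
`inr j`, `j < u`, for `exp(α_j z)`. -/
abbrev Index (c κ r s u : ℕ) : Type := (Fin c × (Fin κ × (Fin r × Fin s))) ⊕ Fin u

/-- The values at `z`: the `l`-th derivative of the L-function of `χ_j` at `(k + 1) z + x_i`, and `exp(α_j z)`. -/
noncomputable def value {N c κ r s u : ℕ} [NeZero N] (χ : Fin c → DirichletCharacter ℂ N) (x : Fin r → ℝ)
    (α : Fin u → ℝ) (z : ℂ) : Index c κ r s u → ℂ
  | Sum.inl (j, (k, (i, l))) => iteratedDeriv l (DirichletCharacter.LFunction (χ j)) (((k : ℕ) + 1 : ℕ) * z + x i)
  | Sum.inr j => Complex.exp (α j * z)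

/-- The elements of the number field `F` with image in `K` which are quotients of two integers of `F` all of whose
conjugates have absolute value at most `T`. -/
def Points (F : Type) [Field F] [NumberField F] (ι : F →+* ℂ) (K : Set ℂ) (T : ℝ) : Set F :=
  {x | ι x ∈ K ∧ ∃ a b : 𝓞 F, b ≠ 0 ∧ (∀ φ : F →+* ℂ, ‖φ a‖ ≤ T ∧ ‖φ b‖ ≤ T) ∧ x = a / b}

/-- The `n`-tuples `t` of points of `F` for which there is a polynomial `P` of degree at most `d` in each variable, with
coefficients of the form `∑ ξ_a ι(c_a)`, where the `c_a` are integers of `F` all of whose conjugates have absolute value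
at most `T ^ A`, such that the value of `P` at the numbers `value χ x α (ι (t h)) y` is at most `T ^ (-B)` times the
absolute value of some nonzero coefficient of `P`. -/
def Exceptional {N c r u : ℕ} [NeZero N] (χ : Fin c → DirichletCharacter ℂ N) (x : Fin r → ℝ) (α : Fin u → ℝ)
    (κ s n d : ℕ) {g : ℕ} (F : Type) [Field F] [NumberField F] (ι : F →+* ℂ) (ξ : Fin g → ℂ) (K : Set ℂ) (A B T : ℝ) :
    Set (Fin n → F) :=
  {t | (∀ h, t h ∈ Points F ι K T) ∧ ∃ P : MvPolynomial (Fin n × Index c κ r s u) ℂ, (∀ y, P.degreeOf y ≤ d) ∧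
    (∀ m, ∃ c : Fin g → 𝓞 F, (∀ a (φ : F →+* ℂ), ‖φ (c a)‖ ≤ T ^ A) ∧ P.coeff m = ∑ a, ξ a * ι (c a)) ∧
    ∃ m₀, P.coeff m₀ ≠ 0 ∧
      ‖MvPolynomial.aeval (fun y : Fin n × Index c κ r s u => value χ x α (ι (t y.1)) y.2) P‖ ≤
        T ^ (-B) * ‖P.coeff m₀‖}

/-- Let `χ_1, …, χ_c` be different Dirichlet characters modulo `N`, `x_1, …, x_r` different real numbers and
`α_1, …, α_u` real numbers no nontrivial integral combination of which is the logarithm of a positive rational number
(for instance `u = 1` and `α_1 = log π`). For every compact set `K` with `k z + x_i ≠ 1` for all `z ∈ K`, `k ≤ κ` and all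
`i`, and all `s`, `m`, `n`, `g`, `d`, `A` and `ε > 0` there are `B`, `C`, `T₀` such that for every number field `F` of
degree at most `m`, every embedding of `F` in `ℂ`, all complex numbers `ξ_1, …, ξ_g` and all `T ≥ T₀` the number of
exceptional `n`-tuples is at most `C T^ε M^(n - 1)`, where `M` is the number of points. -/
theorem result {N c r u : ℕ} [NeZero N] (χ : Fin c → DirichletCharacter ℂ N) (hχ : Function.Injective χ)
    (x : Fin r → ℝ) (hx : Function.Injective x) (α : Fin u → ℝ)
    (hα : ∀ (e : Fin u → ℤ) (y : ℚ), 0 < y → ∑ j, e j * α j = Real.log y → e = 0)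
    (κ : ℕ) (K : Set ℂ) (hK : IsCompact K)
    (hKx : ∀ z ∈ K, ∀ (k : Fin κ) (i : Fin r), (((k : ℕ) + 1 : ℕ) : ℂ) * z + x i ≠ 1)
    (s m n g d : ℕ) (A ε : ℝ) (hε : 0 < ε) :
    ∃ B C T₀ : ℝ, ∀ (F : Type) [Field F] [NumberField F], Module.finrank ℚ F ≤ m → ∀ (ι : F →+* ℂ) (ξ : Fin g → ℂ)
      (T : ℝ), T₀ ≤ T → (Exceptional χ x α κ s n d F ι ξ K A B T).Finite ∧
        ((Exceptional χ x α κ s n d F ι ξ K A B T).ncard : ℝ) ≤
          C * T ^ ε * ((Points F ι K T).ncard : ℝ) ^ (n - 1) := by
  classical
  have hα' : ∀ (e e' : Fin u → ℕ) (x y : ℕ), 1 ≤ x → 1 ≤ y →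
      ∑ j, e j * α j + Real.log x = ∑ j, e' j * α j + Real.log y → e = e' := by
    intro e e' x y hx hy h
    have hx' : (0 : ℝ) < x := by exact_mod_cast hx
    have hy' : (0 : ℝ) < y := by exact_mod_cast hy
    have h1 := hα (fun j => (e j : ℤ) - (e' j : ℤ)) ((y : ℚ) / x) (by positivity) (by
      push_cast
      rw [Real.log_div hy'.ne' hx'.ne']
      simp only [sub_mul, Finset.sum_sub_distrib]
      linarith)
    funext j
    have h2 := congrFun h1 j
    simp only [Pi.zero_apply] at h2
    omega
  have hval : ∀ (y : Index c κ r s u) (z : ℂ), value χ x α z y = Q23.ZZ.funZ χ x α y z := by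
    rintro (⟨j, k, i, l⟩ | j) z
    · simp [value, Q23.ZZ.funZ, Q23.ZZ.Lf]
    · rfl
  have hval' : (fun (y : Index c κ r s u) (z : ℂ) => value χ x α z y) = Q23.ZZ.funZ χ x α :=
    funext fun y => funext fun z => hval y z
  have h := Y771.RP.main' m n g d (fun (y : Index c κ r s u) (z : ℂ) => value χ x α z y) K hK
    (by
      intro y t ht
      rw [show (fun z => value χ x α z y) = Q23.ZZ.funZ χ x α y from funext (hval y)]
      exact Q23.ZZ.funZ_an χ x α y (hKx t ht))
    (by
      rw [hval']
      exact fun t ht => Q23.ZZ.funZ_loc χ hχ x hx α hα' t (hKx t ht)) A ε hε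
  exact h

end Pool.Agent.Results.MP_c2395a_nt.ZetaAtMultiples
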