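import Pool.Agent.Q23.DM.Lam

/-!
# `ψ`, the Hurwitz zeta functions and the Lerch functions at almost all algebraic numbers of bounded degree

Let `Φ(w, k, z) = ∑_{m ≥ 0} w^m / (m + z)^k` and `Φ(1, 1, z) = -ψ(z) = -Γ'(z)/Γ(z)`. The values at `z = 1` include
`Φ(1, 1, 1) = γ` and `Φ(1, k, 1) = ζ(k)`, those at `z = 1/2` include `Φ(-1, 2, 1/2) = 4 G` (Catalan's constant), and
`w Φ(w, k, 1)` is the polylogarithm. Let `x_1, …, x_r` be complex numbers which are pairwise incongruent modulo `ℤ`, and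
`w_1, …, w_p` distinct complex numbers. For almost all elements `q` of number fields of bounded degree (and for almost all
`n`-tuples of them) all numbers `Φ(w_j, k, q + x_i)`, `k ≤ s`, satisfy no polynomial relation of bounded degree and
polynomially bounded height, not even approximately, and relative to arbitrary constants (for instance the powers of `π`).
-/

set_option autoImplicit false

open NumberField

namespace Pool.Agent.Results.MP_e48a95_nt.DigammaAndHurwitzZeta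

/-- The pairs `(w, k)` which are considered: `w ≠ 0`, and `|w| < 1`, or `|w| ≤ 1` and `k ≥ 2`, or `w = k = 1`. -/
def Admissible (w : ℂ) (k : ℕ) : Prop := w ≠ 0 ∧ (‖w‖ < 1 ∨ (w = 1 ∧ k = 1) ∨ (‖w‖ ≤ 1 ∧ 2 ≤ k))

/-- The function `Φ(w, k, z) = ∑_{m ≥ 0} w^m / (m + z)^k`, and `Φ(1, 1, z) = -ψ(z)`. -/
noncomputable def Lerch (w : ℂ) (k : ℕ) (z : ℂ) : ℂ :=
  if w = 1 ∧ k = 1 then -Complex.digamma z else ∑' m : ℕ, w ^ m / ((m : ℂ) + z) ^ k

/-- The index set: `(j, (i, k))`, `j < p`, `i < r`, `k < s`, such that the pair `(w_j, k + 1)` is admissible. -/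
abbrev Index {p : ℕ} (w : Fin p → ℂ) (r s : ℕ) : Type :=
  {a : Fin p × (Fin r × Fin s) // Admissible (w a.1) ((a.2.2 : ℕ) + 1)}

/-- The elements of the number field `F` with image in `K` which are quotients of two integers of `F` all of whose
conjugates have absolute value at most `T`. -/
def Points (F : Type) [Field F] [NumberField F] (ι : F →+* ℂ) (K : Set ℂ) (T : ℝ) : Set F :=
  {x | ι x ∈ K ∧ ∃ a b : 𝓞 F, b ≠ 0 ∧ (∀ φ : F →+* ℂ, ‖φ a‖ ≤ T ∧ ‖φ b‖ ≤ T) ∧ x = a / b}

/-- The `n`-tuples `t` of points of `F` for which there is a polynomial `P` of degree at most `d` in each variable, with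
coefficients of the form `∑ ξ_l ι(c_l)`, where the `c_l` are integers of `F` all of whose conjugates have absolute value
at most `T ^ A`, such that the value of `P` at the numbers `Φ(w_j, k + 1, ι(t_h) + x_i)` (variable `(h, (j, (i, k)))`) is
at most `T ^ (-B)` times the absolute value of some nonzero coefficient of `P`. -/
def Exceptional {p r : ℕ} (w : Fin p → ℂ) (x : Fin r → ℂ) (s n d : ℕ) {g : ℕ} (F : Type) [Field F] [NumberField F]
    (ι : F →+* ℂ) (ξ : Fin g → ℂ) (K : Set ℂ) (A B T : ℝ) : Set (Fin n → F) :=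
  {t | (∀ h, t h ∈ Points F ι K T) ∧ ∃ P : MvPolynomial (Fin n × Index w r s) ℂ, (∀ y, P.degreeOf y ≤ d) ∧
    (∀ m, ∃ c : Fin g → 𝓞 F, (∀ l (φ : F →+* ℂ), ‖φ (c l)‖ ≤ T ^ A) ∧ P.coeff m = ∑ l, ξ l * ι (c l)) ∧
    ∃ m₀, P.coeff m₀ ≠ 0 ∧
      ‖MvPolynomial.aeval (fun y : Fin n × Index w r s =>
        Lerch (w y.2.1.1) ((y.2.1.2.2 : ℕ) + 1) (ι (t y.1) + x y.2.1.2.1)) P‖ ≤ T ^ (-B) * ‖P.coeff m₀‖}

/-- Let `w_1, …, w_p` be distinct complex numbers and `x_1, …, x_r` complex numbers with `x_i - x_j ∉ ℤ` for `i ≠ j`. For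
every compact set `K` with `Re (z + x_i) > 0` for all `z ∈ K` and all `i`, and all `s`, `m`, `n`, `g`, `d`, `A` and `ε > 0`
there are `B`, `C`, `T₀` such that for every number field `F` of degree at most `m`, every embedding of `F` in `ℂ`, all
complex numbers `ξ_1, …, ξ_g` and all `T ≥ T₀` the number of exceptional `n`-tuples is at most `C T^ε N^(n - 1)`, where
`N` is the number of points (for `F = ℚ` and `K = [a, b]`, `N` is of the order `T^2`). -/
theorem result {p r : ℕ} (w : Fin p → ℂ) (hw : Function.Injective w) (x : Fin r → ℂ)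
    (hx : ∀ i j (k : ℤ), x i = x j + k → i = j) (K : Set ℂ) (hK : IsCompact K) (hKx : ∀ z ∈ K, ∀ i, 0 < (z + x i).re)
    (s m n g d : ℕ) (A ε : ℝ) (hε : 0 < ε) :
    ∃ B C T₀ : ℝ, ∀ (F : Type) [Field F] [NumberField F], Module.finrank ℚ F ≤ m → ∀ (ι : F →+* ℂ) (ξ : Fin g → ℂ)
      (T : ℝ), T₀ ≤ T → (Exceptional w x s n d F ι ξ K A B T).Finite ∧
        ((Exceptional w x s n d F ι ξ K A B T).ncard : ℝ) ≤ C * T ^ ε * ((Points F ι K T).ncard : ℝ) ^ (n - 1) := by
  classical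
  let u : (Q23.DM.Ix w r s) ⊕ (Fin r ⊕ Fin 0) → ℂ → ℂ := Q23.DM.fun3 w x (fun j => j.elim0)
  have hind : ∀ t ∈ K, Y124.LocInd (fun a : Q23.DM.Ix w r s => u (Sum.inl a)) t := fun t ht =>
    Q23.AQ.locInd_comp Sum.inl Sum.inl_injective u t
      (Q23.DM.fun3_loc w hw x hx (fun j => j.elim0) (fun _ _ _ => Subsingleton.elim _ _) t (hKx t ht))
  have h := Y771.RP.main' m n g d (fun a : Q23.DM.Ix w r s => u (Sum.inl a)) K hK
    (fun y t ht => Q23.DM.fun3_an w x (fun j => j.elim0) (Sum.inl y) (hKx t ht)) hind A ε hε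
  exact h

end Pool.Agent.Results.MP_e48a95_nt.DigammaAndHurwitzZeta
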