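import Mathlib
import Pool.Agent.Q29.DigPolyTM

/-!
# The digits of the numbers `s π ^ k`, `s + x π` and of the values of polynomials at them

If `ζ(3)` and `ζ(3) / π³` (or `γ` and `γ + π`, ...) were both algebraic, `π` would be algebraic. So for every real
`s ≠ 0` at most one of the numbers `s π ^ k`, `k ∈ ℤ`, is algebraic, that is, for at most one `k` there is a nonconstant
integer polynomial `P` such that `P(s π ^ k)` is rational, with digits of bounded linear complexity (the least order of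
a linear recurrence which the first `L` digits satisfy). We prove this at every scale: for every finite set of
exponents `k` and every `D` there is an exponent `κ`, which does not depend on `s`, such that at each scale `Λ` at
most one `k` is exceptional; for all other `k`, all nonconstant `P` of degree at most `D` and height at most `e^(δ Λ)`
and all bases `g ≤ e^(δ Λ)` the linear complexity of the first `⌊Λ / log g⌋` digits of `P(s π ^ k)` in base `g` is at
least `(1 / (κ + 1) - ε) Λ / log g`. In particular this holds for `s = ζ(3)`, `k = 0, -3`: the digits of `P(ζ(3))` and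
of `Q(ζ(3) / π³)` are never simple at the same scale. The same for the numbers `s + x π`, `x` in a finite set of real
algebraic numbers (for instance `s = γ`).

The proof uses the simultaneous measures of transcendence of the starting files `Pool/Agent/TH456/TM/` and the
approximations given by a short recurrence of digits, uniformly in the base (`Pool/Agent/Y928/PL/Mixed.lean`).
-/

set_option autoImplicit false

namespace Pool.Agent.Results.MP_e48a95_nt.DigitsOfPolynomials

open Finset Polynomial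

/-- the `i`-th digit of `x` after the point in base `g` -/
noncomputable def digit (g : ℕ) (x : ℝ) (i : ℕ) : ℤ := ⌊x * (g : ℝ) ^ i⌋ % (g : ℤ)

/-- the linear complexity of the first `L` digits of `x` in base `g`: the least `m` such that for some
rational numbers `c_0, …, c_(m-1)` one has `s_(i+m) = c_0 s_i + … + c_(m-1) s_(i+m-1)` for
`1 ≤ i ≤ L - m`, where `s_i` is the `i`-th digit -/
noncomputable def complexity (g : ℕ) (x : ℝ) (L : ℕ) : ℕ :=
  sInf {m | ∃ c : ℕ → ℚ, ∀ i : ℕ, 1 ≤ i → i + m ≤ L →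
    (digit g x (i + m) : ℚ) = ∑ j ∈ range m, c j * (digit g x (i + j) : ℚ)}

/-- the function `m + C √((m+1) log (m+2))` -/
noncomputable def F (C : ℝ) (m : ℕ) : ℝ :=
  m + C * Real.sqrt (((m : ℝ) + 1) * Real.log ((m : ℝ) + 2))

/-- **The digits of the values of nonconstant polynomials of degree at most `D` at different numbers `v i`, `v j` of the
family `v` are not simple at the same scale**, with the exponent `κ`. (1) For some `C`, for all `i ≠ j`, all nonconstant
integer polynomials `P`, `Q` of degree at most `D` with coefficients bounded by `M`, all bases `g`, `g'` and all `L`, `L'`: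
if `F(N) log g ≤ α` and `F(N') log g' ≤ α` for the linear complexities `N`, `N'` of the first `L` digits of `P(v i)` in base
`g` and the first `L'` digits of `Q(v j)` in base `g'`, then `min (L log g, L' log g') ≤ (κ + 1) α + κ log M`. (2) For
`ε > 0` there is `δ > 0` such that for all `Λ ≥ 1`, `i ≠ j`, all such `P`, `Q` with coefficients bounded by `e^(δ Λ)` and all
bases `g, g' ≤ e^(δ Λ)`, with `L = ⌊Λ / log g⌋`, `L' = ⌊Λ / log g'⌋`, one has `N ≥ (1 / (κ + 1) - ε) Λ / log g` or
`N' ≥ (1 / (κ + 1) - ε) Λ / log g'`. So at each scale `Λ` there is at most one `i` such that the digits of some number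
`P(v i)` in some base are simple. -/
def Complicated {ι : Type} (v : ι → ℝ) (D : ℕ) (κ : ℝ) : Prop :=
  (∃ C : ℝ, 0 < C ∧ ∀ i j, i ≠ j → ∀ P Q : ℤ[X], 0 < P.natDegree → 0 < Q.natDegree → P.natDegree ≤ D →
    Q.natDegree ≤ D → ∀ M : ℝ, 1 ≤ M → (∀ n, |(P.coeff n : ℝ)| ≤ M) → (∀ n, |(Q.coeff n : ℝ)| ≤ M) →
    ∀ g g' : ℕ, 2 ≤ g → 2 ≤ g' → ∀ (L L' : ℕ) (Λ α : ℝ), Λ ≤ L * Real.log g → Λ ≤ L' * Real.log g' →
      F C (complexity g (aeval (v i) P) L) * Real.log g ≤ α →
      F C (complexity g' (aeval (v j) Q) L') * Real.log g' ≤ α → Λ ≤ (κ + 1) * α + κ * Real.log M) ∧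
  ∀ ε : ℝ, 0 < ε → ∃ δ : ℝ, 0 < δ ∧ ∀ Λ : ℝ, 1 ≤ Λ → ∀ i j, i ≠ j → ∀ P Q : ℤ[X], 0 < P.natDegree →
    0 < Q.natDegree → P.natDegree ≤ D → Q.natDegree ≤ D → (∀ n, |(P.coeff n : ℝ)| ≤ Real.exp (δ * Λ)) →
    (∀ n, |(Q.coeff n : ℝ)| ≤ Real.exp (δ * Λ)) → ∀ g g' : ℕ, 2 ≤ g → 2 ≤ g' → (g : ℝ) ≤ Real.exp (δ * Λ) →
    (g' : ℝ) ≤ Real.exp (δ * Λ) →
      (1 / (κ + 1) - ε) * (Λ / Real.log g) ≤ complexity g (aeval (v i) P) ⌊Λ / Real.log g⌋₊ ∨
      (1 / (κ + 1) - ε) * (Λ / Real.log g') ≤ complexity g' (aeval (v j) Q) ⌊Λ / Real.log g'⌋₊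

/-- **The digits of the numbers `s π ^ k` and `s + x π`.** For every finite set `S` of integers and every `D` there is
an exponent `κ` such that for every real `s ≠ 0` the numbers `s π ^ k`, `k ∈ S`, have this property, and for every
finite set `T` of real algebraic numbers and every `D` there is `κ` such that for every real `s` the numbers `s + x π`,
`x ∈ T`, have this property. -/
theorem result : (∀ (S : Finset ℤ) (D : ℕ), ∃ κ : ℝ, 0 < κ ∧ ∀ s : ℝ, s ≠ 0 →
      Complicated (fun k : S => s * Real.pi ^ (k : ℤ)) D κ) ∧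
    (∀ (T : Finset ℝ) (D : ℕ), (∀ x ∈ T, IsAlgebraic ℚ x) → ∃ κ : ℝ, 0 < κ ∧ ∀ s : ℝ,
      Complicated (fun x : T => s + (x : ℝ) * Real.pi) D κ) := by
  have hpi : Pool.Agent.TH456.TM.MeasT (Real.pi : ℂ) := Pool.Agent.TH456.TM.measT_pi
  have hpi0 : (Real.pi : ℂ) ≠ 0 := by exact_mod_cast Real.pi_ne_zero
  constructor
  · intro S D
    obtain ⟨κ, hκ, h⟩ := Pool.Agent.TH456.TM.fam_mul (Finset.univ : Finset S)
      (fun k => (Real.pi : ℂ) ^ (k : ℤ)) (fun k _ => zpow_ne_zero _ hpi0)
      (fun i _ j _ hij => by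
        rw [← zpow_sub₀ hpi0]
        exact Pool.Agent.TH456.TM.measT_zpow hpi _
          (sub_ne_zero.2 fun e => hij (Subtype.ext e.symm))) _ hpi D
    refine ⟨max κ 3, by positivity, fun s hs => ?_⟩
    obtain ⟨C, hC, h1, h2⟩ := h (s : ℂ) (by exact_mod_cast hs)
    have e : ∀ k : S, ((s * Real.pi ^ (k : ℤ) : ℝ) : ℂ) = (s : ℂ) * (Real.pi : ℂ) ^ (k : ℤ) := by
      intro k
      push_cast
      rfl
    refine Pool.Agent.Q29.DD.digComplex_of_TM _ D κ ⟨C, hC, ?_⟩
    intro i j hij P Q hP hQ hPD hQD H hPH hQH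
    rw [e, e]
    exact h1 i (Finset.mem_univ _) j (Finset.mem_univ _) hij P Q hP hQ hPD hQD H hPH hQH
  · intro T D hT
    obtain ⟨κ, hκ, h⟩ := Pool.Agent.TH456.TM.fam_add (Finset.univ : Finset T)
      (fun x => ((x : ℝ) : ℂ) * (Real.pi : ℂ))
      (fun i _ j _ hij => by
        rw [← sub_mul, mul_comm]
        have hne : ((j : ℝ) - (i : ℝ)) ≠ 0 := sub_ne_zero.2 fun e => hij (Subtype.ext e.symm)
        have halg : IsAlgebraic ℚ ((j : ℝ) - (i : ℝ)) := (hT _ j.2).sub (hT _ i.2)
        have halg2 : IsAlgebraic ℤ ((((j : ℝ) - (i : ℝ) : ℝ)) : ℂ) := by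
          have h3 : IsAlgebraic ℤ ((j : ℝ) - (i : ℝ)) := (IsFractionRing.isAlgebraic_iff ℤ ℚ ℝ).2 halg
          exact h3.algebraMap
        rw [← Complex.ofReal_sub]
        exact Pool.Agent.TH456.TM.measT_mul_alg hpi _ halg2 (by exact_mod_cast hne)) _ hpi D
    refine ⟨max κ 3, by positivity, fun s => ?_⟩
    obtain ⟨C, hC, h⟩ := h ‖(s : ℂ)‖
    obtain ⟨h1, h2⟩ := h (s : ℂ) le_rfl
    have e : ∀ x : T, ((s + (x : ℝ) * Real.pi : ℝ) : ℂ) = (s : ℂ) + ((x : ℝ) : ℂ) * (Real.pi : ℂ) := by
      intro x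
      push_cast
      rfl
    refine Pool.Agent.Q29.DD.digComplex_of_TM _ D κ ⟨C, hC, ?_⟩
    intro i j hij P Q hP hQ hPD hQD H hPH hQH
    rw [e, e]
    exact h1 i (Finset.mem_univ _) j (Finset.mem_univ _) hij P Q hP hQ hPD hQD H hPH hQH

end Pool.Agent.Results.MP_e48a95_nt.DigitsOfPolynomials
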