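import Mathlib
import Pool.Agent.Q29.EqTM

/-!
# Uniform distribution of the multiples of `s π ^ k`, `s + x π` and of the values of polynomials at them

For every real `s ≠ 0` at most one of the numbers `s π ^ k`, `k ∈ ℤ`, is algebraic (for instance `s = ζ(3)`,
`k = 0, -3`, or `s = γ`), and for every real `s` at most one of the numbers `s + x π`, `x` real algebraic, is algebraic. If
a number `x` is rational, its multiples by the integers up to `M`, by their powers or by the primes up to `M` are not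
uniformly distributed modulo one at any large scale `M`; if `x` is algebraic of degree at most `D`, this happens for some
`P(x)`, `P` a nonconstant integer polynomial of degree at most `D`. We prove that at every scale at most one of the
numbers `s π ^ k` (and of the numbers `s + x π`) has such a defect: for every finite set of exponents `k`, all `D`, `K` and
`A` there is `κ > 0` which does not depend on `s` such that for every large `N`, with at most one exception, the numbers
`x = s π ^ k` have the following property. For all nonconstant integer polynomials `P` of degree at most `D` and height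
at most `N ^ κ` and all `M` from `N` to `N ^ A`, the multiples of `P(x)` by the integers up to `M`, by their `k`-th powers,
`k ≤ K` (even with a real polynomial of degree less than `k` added), and by the primes up to `M` in each residue class
modulo `d ≤ M ^ κ`, are uniformly distributed modulo one with an error `M ^ (1 - κ)`. So for every large `N` one of the
numbers `ζ(3)`, `ζ(3) / π³` has this property for all polynomials and all scales from `N` to `N ^ A`; the same for `γ` and
`γ / π`, or `γ` and `γ + π`.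

The proof uses the simultaneous measures of transcendence of the starting files `Pool/Agent/TH456/TM/`, an inverse
theorem for the sums of Weyl and a form of the estimate of Vinogradov for the sums over primes with a power saving from
the starting files (`H373R2/NB`, `W110/HV`).
-/

set_option autoImplicit false

namespace Pool.Agent.Results.MP_e48a95_nt.MultiplesAlongPrimes

open Finset Polynomial

/-- The multiples of `x` are uniformly distributed at the scale `M`, with a power saving, along all polynomials of degree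
at most `K` and along the primes of all residue classes:

* for every nonzero integer `b` with `|b| ≤ M ^ κ`, every `1 ≤ k ≤ K` and every real polynomial `R` of degree less than
  `k`, the number of `0 ≤ n < M` with the fractional part of `b x n ^ k + R(n)` in `[u, v)` is `(v - u) M` up to
  `M ^ (1 - κ)`, for all `0 ≤ u ≤ v ≤ 1`;
* for every such `b`, every `1 ≤ d ≤ M ^ κ`, every `r` and every real `β`, the number of primes `p ≤ M` with
  `p ≡ r (mod d)` and the fractional part of `b x p + β` in `[u, v)` is `(v - u)` times the number of all the primes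
  `p ≤ M` with `p ≡ r (mod d)`, up to `M ^ (1 - κ)`. -/
def Good (κ : ℝ) (K M : ℕ) (x : ℝ) : Prop :=
  (∀ b : ℤ, b ≠ 0 → |(b : ℝ)| ≤ (M : ℝ) ^ κ → ∀ k : ℕ, 1 ≤ k → k ≤ K → ∀ R : ℝ[X], R.degree < k →
    ∀ u v : ℝ, 0 ≤ u → u ≤ v → v ≤ 1 →
      |(((range M).filter fun n : ℕ => u ≤ Int.fract (b * x * (n : ℝ) ^ k + R.eval (n : ℝ)) ∧
          Int.fract (b * x * (n : ℝ) ^ k + R.eval (n : ℝ)) < v).card : ℝ) - (v - u) * M| ≤
        (M : ℝ) ^ (1 - κ)) ∧
  (∀ b : ℤ, b ≠ 0 → |(b : ℝ)| ≤ (M : ℝ) ^ κ → ∀ d r : ℕ, 1 ≤ d → (d : ℝ) ≤ (M : ℝ) ^ κ → ∀ β : ℝ,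
    ∀ u v : ℝ, 0 ≤ u → u ≤ v → v ≤ 1 →
      |(((range (M + 1)).filter fun p : ℕ => (p.Prime ∧ p ≡ r [MOD d]) ∧
          (u ≤ Int.fract (b * x * p + β) ∧ Int.fract (b * x * p + β) < v)).card : ℝ) -
        (v - u) * ((range (M + 1)).filter fun p : ℕ => p.Prime ∧ p ≡ r [MOD d]).card| ≤
        (M : ℝ) ^ (1 - κ))

/-- All the values `P(x)`, `P` a nonconstant integer polynomial of degree at most `D` with coefficients bounded by
`N ^ κ`, have uniformly distributed multiples at all the scales `M` from `N` to `N ^ A`. If `x` is algebraic of degree at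
most `D`, then this fails for all large `N`, since some `P(x)` is an integer. -/
def AllGood (x : ℝ) (D K : ℕ) (A κ : ℝ) (N : ℕ) : Prop :=
  ∀ P : ℤ[X], 0 < P.natDegree → P.natDegree ≤ D → (∀ n, |(P.coeff n : ℝ)| ≤ (N : ℝ) ^ κ) →
    ∀ M : ℕ, N ≤ M → (M : ℝ) ≤ (N : ℝ) ^ A → Good κ K M (aeval x P)

theorem good_iff (κ : ℝ) (K M : ℕ) (x : ℝ) : Good κ K M x ↔ Pool.Agent.Q29.Eqd.Good κ K M x := Iff.rfl

theorem allGood_iff (x : ℝ) (D K : ℕ) (A κ : ℝ) (N : ℕ) :
    AllGood x D K A κ N ↔ Pool.Agent.Q29.Eqd.AllGood x D K A κ N := by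
  unfold AllGood Pool.Agent.Q29.Eqd.AllGood
  simp only [good_iff]

theorem transfer {ι : Type} (S : Finset ι) (v : ι → ℝ) (D K : ℕ) (A κ : ℝ) (N : ℕ)
    (h : {i : S | ¬ Pool.Agent.Q29.Eqd.AllGood (v i) D K A κ N}.Subsingleton) :
    {i | i ∈ S ∧ ¬ AllGood (v i) D K A κ N}.Subsingleton := by
  intro i hi j hj
  rw [Set.mem_ofPred_eq] at hi hj
  have h3 : (⟨i, hi.1⟩ : S) = ⟨j, hj.1⟩ := by
    apply h
    · rw [Set.mem_ofPred_eq, ← allGood_iff]
      exact hi.2
    · rw [Set.mem_ofPred_eq, ← allGood_iff]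
      exact hj.2
  exact congrArg Subtype.val h3

/-- **Uniform distribution of the multiples of the numbers `s π ^ k` and `s + x π` and of the values of polynomials.**
(1) For every finite set `S` of integers, all `D`, `K` and every `A ≥ 1` there is `κ > 0` such that for every real `s ≠ 0`
there is `N₀` such that for every `N ≥ N₀` at most one of the numbers `s π ^ k`, `k ∈ S`, does not have the property
`AllGood`. (2) For every finite set `T` of real algebraic numbers, all `D`, `K` and every `A ≥ 1` there is `κ > 0` such that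
for every real `s` there is `N₀` such that for every `N ≥ N₀` at most one of the numbers `s + x π`, `x ∈ T`, does not have
the property `AllGood`. -/
theorem result : (∀ (S : Finset ℤ) (D K : ℕ) (A : ℝ), 1 ≤ A → ∃ κ : ℝ, 0 < κ ∧ ∀ s : ℝ, s ≠ 0 →
      ∃ N₀ : ℕ, ∀ N : ℕ, N₀ ≤ N → {k | k ∈ S ∧ ¬ AllGood (s * Real.pi ^ k) D K A κ N}.Subsingleton) ∧
    (∀ (T : Finset ℝ) (D K : ℕ) (A : ℝ), 1 ≤ A → (∀ x ∈ T, IsAlgebraic ℚ x) → ∃ κ : ℝ, 0 < κ ∧ ∀ s : ℝ,
      ∃ N₀ : ℕ, ∀ N : ℕ, N₀ ≤ N → {x | x ∈ T ∧ ¬ AllGood (s + x * Real.pi) D K A κ N}.Subsingleton) := by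
  have hpi : Pool.Agent.TH456.TM.MeasT (Real.pi : ℂ) := Pool.Agent.TH456.TM.measT_pi
  have hpi0 : (Real.pi : ℂ) ≠ 0 := by exact_mod_cast Real.pi_ne_zero
  constructor
  · intro S D K A hA
    obtain ⟨κ, hκ, h⟩ := Pool.Agent.TH456.TM.fam_mul (Finset.univ : Finset S)
      (fun k => (Real.pi : ℂ) ^ (k : ℤ)) (fun k _ => zpow_ne_zero _ hpi0)
      (fun i _ j _ hij => by
        rw [← zpow_sub₀ hpi0]
        exact Pool.Agent.TH456.TM.measT_zpow hpi _
          (sub_ne_zero.2 fun e => hij (Subtype.ext e.symm))) _ hpi D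
    obtain ⟨κ', hκ', hE⟩ := Pool.Agent.Q29.Eqd.allGood_of_TM (ι := S) D K κ A hκ.le hA
    refine ⟨κ', hκ', fun s hs => ?_⟩
    obtain ⟨C, hC, h1, h2⟩ := h (s : ℂ) (by exact_mod_cast hs)
    have e : ∀ k : S, ((s * Real.pi ^ (k : ℤ) : ℝ) : ℂ) = (s : ℂ) * (Real.pi : ℂ) ^ (k : ℤ) := by
      intro k
      push_cast
      rfl
    obtain ⟨N₀, hN₀⟩ := hE (fun k : S => s * Real.pi ^ (k : ℤ)) ⟨C, hC, by
      intro i j hij P Q hP hQ hPD hQD H hPH hQH
      rw [e, e]
      exact h1 i (Finset.mem_univ _) j (Finset.mem_univ _) hij P Q hP hQ hPD hQD H hPH hQH⟩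
    exact ⟨N₀, fun N hN => transfer S (fun k => s * Real.pi ^ k) D K A κ' N (hN₀ N hN)⟩
  · intro T D K A hA hT
    obtain ⟨κ, hκ, h⟩ := Pool.Agent.TH456.TM.fam_add (Finset.univ : Finset T)
      (fun x => ((x : ℝ) : ℂ) * (Real.pi : ℂ))
      (fun i _ j _ hij => by
        rw [← sub_mul, mul_comm]
        have hne : ((j : ℝ) - (i : ℝ)) ≠ 0 := sub_ne_zero.2 fun e => hij (Subtype.ext e.symm)
        have halg : IsAlgebraic ℚ ((j : ℝ) - (i : ℝ)) := (hT _ j.2).sub (hT _ i.2)
        have halg2 : IsAlgebraic ℤ ((((j : ℝ) - (i : ℝ) : ℝ)) : ℂ) := by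
          have h3 : IsAlgebraic ℤ ((j : ℝ) - (i : ℝ)) := (IsFractionRing.isAlgebraic_iff ℤ ℚ ℝ).2 halg
          exact h3.algebraMap
        rw [← Complex.ofReal_sub]
        exact Pool.Agent.TH456.TM.measT_mul_alg hpi _ halg2 (by exact_mod_cast hne)) _ hpi D
    obtain ⟨κ', hκ', hE⟩ := Pool.Agent.Q29.Eqd.allGood_of_TM (ι := T) D K κ A hκ.le hA
    refine ⟨κ', hκ', fun s => ?_⟩
    obtain ⟨C, hC, h⟩ := h ‖(s : ℂ)‖
    obtain ⟨h1, h2⟩ := h (s : ℂ) le_rfl
    have e : ∀ x : T, ((s + (x : ℝ) * Real.pi : ℝ) : ℂ) = (s : ℂ) + ((x : ℝ) : ℂ) * (Real.pi : ℂ) := by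
      intro x
      push_cast
      rfl
    obtain ⟨N₀, hN₀⟩ := hE (fun x : T => s + (x : ℝ) * Real.pi) ⟨C, hC, by
      intro i j hij P Q hP hQ hPD hQD H hPH hQH
      rw [e, e]
      exact h1 i (Finset.mem_univ _) j (Finset.mem_univ _) hij P Q hP hQ hPD hQD H hPH hQH⟩
    exact ⟨N₀, fun N hN => transfer T (fun x => s + x * Real.pi) D K A κ' N (hN₀ N hN)⟩

end Pool.Agent.Results.MP_e48a95_nt.MultiplesAlongPrimes
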