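import Mathlib
import Pool.Agent.TH456.TM.E

/-!
# The numbers `s π ^ k`: a simultaneous measure of transcendence and sparse near relations

Since `π` is transcendental, one of `ζ(3)`, `ζ(3) / π³` is transcendental, and more generally at most
one of the numbers `s π ^ k`, `k ∈ ℤ`, is algebraic, for every real `s ≠ 0` (for instance `s = ζ(3)` or
Euler's constant `s = γ`). Here is a quantitative form, with an exponent which does not depend on `s`,
and the same for the numbers `s + x π`, `x` in a finite set of real algebraic numbers.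

The measure is in the helper files `Pool/Agent/TH456/TM/`, where the two families are treated in
`Fam.lean`; no hand-in used them so far.
-/

set_option autoImplicit false

namespace Pool.Agent.Results.MP_e48a95_nt.PairsOfMultiples

open Polynomial

/-- the largest absolute value of a coefficient of `P` -/
noncomputable def height (P : ℤ[X]) : ℕ := P.support.sup fun i => (P.coeff i).natAbs

/-- The finite family `v` of numbers is **separated** in degree `D` with the exponent `κ`: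
(1) for some `C > 0`, all `i ≠ j` and all nonzero integer polynomials `P`, `Q` of degree at most `D` and
height at most `H`, one of the numbers `|P(v i)|`, `|Q(v j)|` is at least `C H ^ (-κ)`;
(2) for `1 < ρ < w / κ` the pairs `(i, P)`, `P` an irreducible integer polynomial of degree at most `D`
with a positive leading coefficient, such that `|P(v i)| ≤ height(P) ^ (-w)` are sparse: at most
`log (log X) / log ρ + C` of them have height at most `X`. -/
def Separated {ι : Type} (v : ι → ℝ) (D : ℕ) (κ : ℝ) : Prop :=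
  (∃ C : ℝ, 0 < C ∧ ∀ i j, i ≠ j → ∀ P Q : ℤ[X], P ≠ 0 → Q ≠ 0 → P.natDegree ≤ D →
    Q.natDegree ≤ D → ∀ H : ℝ, (height P : ℝ) ≤ H → (height Q : ℝ) ≤ H →
    C * H ^ (-κ) ≤ max |aeval (v i) P| |aeval (v j) Q|) ∧
  ∀ w ρ : ℝ, 1 < ρ → ρ < w / κ → ∃ C : ℝ, ∀ X : ℝ, 3 ≤ X →
    {p : ι × ℤ[X] | Irreducible p.2 ∧ p.2.natDegree ≤ D ∧ 0 < p.2.leadingCoeff ∧
      (height p.2 : ℝ) ≤ X ∧ |aeval (v p.1) p.2| ≤ (height p.2 : ℝ) ^ (-w)}.Finite ∧
    ({p : ι × ℤ[X] | Irreducible p.2 ∧ p.2.natDegree ≤ D ∧ 0 < p.2.leadingCoeff ∧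
      (height p.2 : ℝ) ≤ X ∧ |aeval (v p.1) p.2| ≤ (height p.2 : ℝ) ^ (-w)}.ncard : ℝ) ≤
        Real.log (Real.log X) / Real.log ρ + C

open Pool.Agent.TH456.TM in
/-- passage from the statements of the library -/
theorem separated_of {ι : Type} [Fintype ι] (v : ι → ℝ) (D : ℕ) (κ : ℝ) (hκ : 0 < κ)
    (h : ∃ C : ℝ, 0 < C ∧
      (∀ i j, i ≠ j → ∀ P Q : ℤ[X], P ≠ 0 → Q ≠ 0 → P.natDegree ≤ D →
        Q.natDegree ≤ D → ∀ H : ℝ, (ht P : ℝ) ≤ H → (ht Q : ℝ) ≤ H →
        C * H ^ (-κ) ≤ max ‖aeval (v i : ℂ) P‖ ‖aeval (v j : ℂ) Q‖) ∧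
      (∀ i, ∀ P ∈ I1 D, ∀ Q ∈ I1 D, P ≠ Q → ∀ H : ℝ, (ht P : ℝ) ≤ H → (ht Q : ℝ) ≤ H →
        C * H ^ (-κ) ≤ max ‖aeval (v i : ℂ) P‖ ‖aeval (v i : ℂ) Q‖)) : Separated v D κ := by
  obtain ⟨C, hC, h1, h2⟩ := h
  refine ⟨⟨C, hC, ?_⟩, ?_⟩
  · intro i j hij P Q hP hQ hPD hQD H hPH hQH
    have h3 := h1 i j hij P Q hP hQ hPD hQD H hPH hQH
    rwa [← abs_aeval, ← abs_aeval] at h3
  · intro w ρ hρ hρw
    obtain ⟨C', hC'⟩ := sparse_fam (Finset.univ : Finset ι) (fun i => (v i : ℂ)) D κ hκ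
      ⟨C, hC, fun i _ j _ P hP Q hQ hne H hPH hQH => by
        by_cases hij : i = j
        · subst hij
          exact h2 i P hP Q hQ (fun e => hne (by rw [e])) H hPH hQH
        · exact h1 i j hij P Q hP.1.ne_zero hQ.1.ne_zero hP.2.1 hQ.2.1 H hPH hQH⟩ w ρ hρ hρw
    refine ⟨C', fun X hX => ?_⟩
    have e : {p : ι × ℤ[X] | Irreducible p.2 ∧ p.2.natDegree ≤ D ∧ 0 < p.2.leadingCoeff ∧
        (height p.2 : ℝ) ≤ X ∧ |aeval (v p.1) p.2| ≤ (height p.2 : ℝ) ^ (-w)} =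
        {p ∈ NearF (Finset.univ : Finset ι) (fun i => (v i : ℂ)) D w | (ht p.2 : ℝ) ≤ X} := by
      ext ⟨i, P⟩
      constructor
      · rintro ⟨a, b, c, d, e⟩
        refine ⟨⟨Finset.mem_univ _, ⟨a, b, c⟩, ?_⟩, d⟩
        show ‖aeval (v i : ℂ) P‖ ≤ (ht P : ℝ) ^ (-w)
        rw [← abs_aeval]
        exact e
      · rintro ⟨⟨-, ⟨a, b, c⟩, e⟩, d⟩
        refine ⟨a, b, c, d, ?_⟩
        have e' : ‖aeval (v i : ℂ) P‖ ≤ (ht P : ℝ) ^ (-w) := e
        rw [← abs_aeval] at e'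
        exact e'
    rw [e]
    exact hC' X hX

/-- **Multiples and translates.** For every finite set `S` of integers and every `D` there is one
exponent `κ` such that for every real `s ≠ 0` (for instance `s = ζ(3)` or `s = γ`) the numbers
`s π ^ k`, `k ∈ S`, are separated in degree `D` with the exponent `κ`; and for every finite set `T` of
real algebraic numbers there is one exponent `κ` such that for every real `s` the numbers `s + x π`,
`x ∈ T`, are separated in degree `D` with the exponent `κ`. -/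
theorem result : (∀ (S : Finset ℤ) (D : ℕ), ∃ κ : ℝ, 0 < κ ∧ ∀ s : ℝ, s ≠ 0 →
      Separated (fun k : S => s * Real.pi ^ (k : ℤ)) D κ) ∧
    (∀ (T : Finset ℝ) (D : ℕ), (∀ x ∈ T, IsAlgebraic ℚ x) → ∃ κ : ℝ, 0 < κ ∧ ∀ s : ℝ,
      Separated (fun x : T => s + (x : ℝ) * Real.pi) D κ) := by
  have hpi : Pool.Agent.TH456.TM.MeasT (Real.pi : ℂ) := Pool.Agent.TH456.TM.measT_pi
  have hpi0 : (Real.pi : ℂ) ≠ 0 := by exact_mod_cast Real.pi_ne_zero
  constructor
  · intro S D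
    obtain ⟨κ, hκ, h⟩ := Pool.Agent.TH456.TM.fam_mul (Finset.univ : Finset S)
      (fun k => (Real.pi : ℂ) ^ (k : ℤ)) (fun k _ => zpow_ne_zero _ hpi0)
      (fun i _ j _ hij => by
        rw [← zpow_sub₀ hpi0]
        exact Pool.Agent.TH456.TM.measT_zpow hpi _
          (sub_ne_zero.2 fun e => hij (Subtype.ext e.symm))) _ hpi D
    refine ⟨κ, hκ, fun s hs => ?_⟩
    obtain ⟨C, hC, h1, h2⟩ := h (s : ℂ) (by exact_mod_cast hs)
    have e : ∀ k : S, ((s * Real.pi ^ (k : ℤ) : ℝ) : ℂ) = (s : ℂ) * (Real.pi : ℂ) ^ (k : ℤ) := by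
      intro k
      push_cast
      rfl
    refine separated_of _ D κ hκ ⟨C, hC, ?_, ?_⟩
    · intro i j hij P Q hP hQ hPD hQD H hPH hQH
      rw [e, e]
      exact h1 i (Finset.mem_univ _) j (Finset.mem_univ _) hij P Q hP hQ hPD hQD H hPH hQH
    · intro i P hP Q hQ hne H hPH hQH
      rw [e]
      exact h2 i (Finset.mem_univ _) P hP Q hQ hne H hPH hQH
  · intro T D hT
    obtain ⟨κ, hκ, h⟩ := Pool.Agent.TH456.TM.fam_add (Finset.univ : Finset T)
      (fun x => ((x : ℝ) : ℂ) * (Real.pi : ℂ))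
      (fun i _ j _ hij => by
        rw [← sub_mul, mul_comm]
        have hne : ((j : ℝ) - (i : ℝ)) ≠ 0 := sub_ne_zero.2 fun e => hij (Subtype.ext e.symm)
        have halg : IsAlgebraic ℚ ((j : ℝ) - (i : ℝ)) := (hT _ j.2).sub (hT _ i.2)
        have halg2 : IsAlgebraic ℤ ((((j : ℝ) - (i : ℝ) : ℝ)) : ℂ) := by
          have h3 : IsAlgebraic ℤ ((j : ℝ) - (i : ℝ)) := (IsFractionRing.isAlgebraic_iff ℤ ℚ ℝ).2 halg
          exact h3.algebraMap
        rw [← Complex.ofReal_sub]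
        exact Pool.Agent.TH456.TM.measT_mul_alg hpi _ halg2 (by exact_mod_cast hne)) _ hpi D
    refine ⟨κ, hκ, fun s => ?_⟩
    obtain ⟨C, hC, h⟩ := h ‖(s : ℂ)‖
    obtain ⟨h1, h2⟩ := h (s : ℂ) le_rfl
    have e : ∀ x : T, ((s + (x : ℝ) * Real.pi : ℝ) : ℂ) = (s : ℂ) + ((x : ℝ) : ℂ) * (Real.pi : ℂ) := by
      intro x
      push_cast
      rfl
    refine separated_of _ D κ hκ ⟨C, hC, ?_, ?_⟩
    · intro i j hij P Q hP hQ hPD hQD H hPH hQH
      rw [e, e]
      exact h1 i (Finset.mem_univ _) j (Finset.mem_univ _) hij P Q hP hQ hPD hQD H hPH hQH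
    · intro i P hP Q hQ hne H hPH hQH
      rw [e]
      exact h2 i (Finset.mem_univ _) P hP Q hQ hne H hPH hQH

end Pool.Agent.Results.MP_e48a95_nt.PairsOfMultiples
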